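import Pool.Agent.W2helper26.PB.Stm

/-!
# Project PB, piece HIT1: two hits of one length occur finitely often
-/

set_option autoImplicit false

namespace Pool.Agent.W2helper66.PB

open Pool.Agent.NPC Pool.Agent.H620R2.Gauge Pool.Agent.W2helper26.PB MeasureTheory Filter

/-- the probability that all elements of a finite set are in the oracle -/
theorem ranO_all (s : Finset (List Bool)) :
    ranO {B : Oracle | ∀ u ∈ s, B u = true} = (2⁻¹ : ENNReal) ^ s.card := by
  have h1 : {B : Oracle | ∀ u ∈ s, B u = true} =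
      Set.pi (s : Set (List Bool)) (fun _ => {true}) := by
    ext R
    simp [Set.mem_pi]
  rw [h1]
  have h2 : ranO (Set.pi (s : Set (List Bool)) (fun _ => {true})) = ∏ y ∈ s, coinM {true} :=
    Measure.infinitePi_pi (fun _ : List Bool => coinM) (s := s) (t := fun _ => {true})
      (fun i _ => MeasurableSet.singleton _)
  rw [h2, Finset.prod_congr rfl (fun y _ => coinM_singleton _), Finset.prod_const]

theorem flatMap_inj : ∀ x y a b : List Bool,
    x.flatMap (fun c => [true, c]) ++ false :: a = y.flatMap (fun c => [true, c]) ++ false :: b →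
    x = y ∧ a = b := by
  intro x
  induction x with
  | nil =>
    intro y a b h
    cases y with
    | nil => simp at h; exact ⟨rfl, h⟩
    | cons c y => simp at h
  | cons c x ih =>
    intro y a b h
    cases y with
    | nil => simp at h
    | cons c' y =>
      simp only [List.flatMap_cons, List.cons_append, List.nil_append, List.cons.injEq,
        true_and] at h
      obtain ⟨h1, h2⟩ := h
      obtain ⟨h3, h4⟩ := ih y a b h2
      exact ⟨by rw [h1, h3], h4⟩

theorem hs_inj {w w' : List Bool} {r r' : ℕ} (h : hs w r = hs w' r') : w = w' ∧ r = r' := by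
  unfold hs pairBits at h
  rw [List.cons.injEq] at h
  obtain ⟨h1, h2⟩ := flatMap_inj _ _ _ _ h.2
  refine ⟨h1, ?_⟩
  have := congrArg List.length h2
  simpa using this

/-- the probability of two given hits -/
theorem two_hits {w w' : List Bool} (hne : w ≠ w') (hl : w'.length = w.length) :
    ranO {B : Oracle | Hit B w ∧ Hit B w'} ≤ (2⁻¹ : ENNReal) ^ (2 * hb w.length) := by
  classical
  set s : Finset (List Bool) := (Finset.range (hb w.length)).image (hs w) ∪
    (Finset.range (hb w.length)).image (hs w') with hs'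
  have hcard : s.card = 2 * hb w.length := by
    rw [hs', Finset.card_union_of_disjoint]
    · rw [Finset.card_image_of_injective _ (fun r r' h => (hs_inj h).2),
        Finset.card_image_of_injective _ (fun r r' h => (hs_inj h).2), Finset.card_range]
      ring
    · rw [Finset.disjoint_left]
      intro y hy hy'
      rw [Finset.mem_image] at hy hy'
      obtain ⟨r, -, hr⟩ := hy
      obtain ⟨r', -, hr'⟩ := hy'
      rw [← hr'] at hr
      exact hne (hs_inj hr).1
  rw [← hcard, ← ranO_all]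
  apply measure_mono
  rintro B ⟨h1, h2⟩ u hu
  rw [hs', Finset.mem_union, Finset.mem_image, Finset.mem_image] at hu
  rcases hu with ⟨r, hr, rfl⟩ | ⟨r, hr, rfl⟩
  · exact h1 r (Finset.mem_range.1 hr)
  · exact h2 r (by rw [hl]; exact Finset.mem_range.1 hr)

/-- two hits of length `n` -/
def EE (n : ℕ) : Set Oracle := {B | ∃ w w' : List Bool, w.length = n ∧ w'.length = n ∧ w ≠ w' ∧
  Hit B w ∧ Hit B w'}

theorem EE_le (n : ℕ) : ranO (EE n) ≤ ENNReal.ofReal (4 / ((n : ℝ) + 1) ^ 2) := by
  classical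
  have hsub : EE n ⊆ ⋃ q ∈ (Finset.univ : Finset ((Fin n → Bool) × (Fin n → Bool))),
      {B : Oracle | List.ofFn q.1 ≠ List.ofFn q.2 ∧ Hit B (List.ofFn q.1) ∧
        Hit B (List.ofFn q.2)} := by
    rintro B ⟨w, w', h1, h2, h3, h4, h5⟩
    subst h1
    have e1 : List.ofFn (fun i : Fin w.length => w.get i) = w := List.ofFn_get w
    have e2 : List.ofFn (fun i : Fin w.length => w'.get (i.cast h2.symm)) = w' := by
      apply List.ext_get
      · simp [h2]
      · intro i hi hi'
        simp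
    simp only [Set.mem_iUnion]
    refine ⟨(fun i => w.get i, fun i => w'.get (i.cast h2.symm)), Finset.mem_univ _, ?_⟩
    show List.ofFn _ ≠ List.ofFn _ ∧ _
    rw [e1, e2]
    exact ⟨h3, h4, h5⟩
  have hb1 : ∀ q : (Fin n → Bool) × (Fin n → Bool),
      ranO {B : Oracle | List.ofFn q.1 ≠ List.ofFn q.2 ∧ Hit B (List.ofFn q.1) ∧
        Hit B (List.ofFn q.2)} ≤ (2⁻¹ : ENNReal) ^ (2 * hb n) := by
    intro q
    by_cases h : List.ofFn q.1 = List.ofFn q.2
    · have : {B : Oracle | List.ofFn q.1 ≠ List.ofFn q.2 ∧ Hit B (List.ofFn q.1) ∧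
          Hit B (List.ofFn q.2)} = ∅ := by
        ext B
        simp [h]
      rw [this]
      simp
    · have h2 := two_hits h (by simp)
      rw [List.length_ofFn] at h2
      refine le_trans (measure_mono ?_) h2
      rintro B ⟨-, h3, h4⟩
      exact ⟨h3, h4⟩
  have hreal : ((2 : ℝ) ^ n) ^ 2 * (1 / 2) ^ (2 * hb n) ≤ 4 / ((n : ℝ) + 1) ^ 2 := by
    set L := Nat.log 2 (n + 1) with hL
    have h1 : n + 1 < 2 ^ (L + 1) := Nat.lt_pow_succ_log_self (by norm_num) _
    have h2 : ((n : ℝ) + 1) ≤ 2 * 2 ^ L := by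
      have : ((n + 1 : ℕ) : ℝ) ≤ ((2 ^ (L + 1) : ℕ) : ℝ) := by exact_mod_cast h1.le
      push_cast at this
      rw [pow_succ] at this
      linarith
    have h3 : ((2 : ℝ) ^ n) ^ 2 * (1 / 2) ^ (2 * hb n) = 1 / (2 ^ L) ^ 2 := by
      unfold hb
      rw [← hL]
      have h5 : (0 : ℝ) < 2 ^ n := by positivity
      have h6 : (0 : ℝ) < 2 ^ L := by positivity
      rw [one_div, inv_pow, pow_mul', pow_add]
      field_simp
    rw [h3, div_le_div_iff₀ (by positivity) (by positivity), one_mul]
    have h7 : (0 : ℝ) ≤ (n : ℝ) + 1 := by positivity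
    calc ((n : ℝ) + 1) ^ 2 ≤ (2 * 2 ^ L) ^ 2 := by gcongr
      _ = 4 * (2 ^ L) ^ 2 := by ring
  calc ranO (EE n) ≤ ranO (⋃ q ∈ (Finset.univ : Finset ((Fin n → Bool) × (Fin n → Bool))),
      {B : Oracle | List.ofFn q.1 ≠ List.ofFn q.2 ∧ Hit B (List.ofFn q.1) ∧
        Hit B (List.ofFn q.2)}) := measure_mono hsub
    _ ≤ ∑ q ∈ (Finset.univ : Finset ((Fin n → Bool) × (Fin n → Bool))),
        ranO {B : Oracle | List.ofFn q.1 ≠ List.ofFn q.2 ∧ Hit B (List.ofFn q.1) ∧
        Hit B (List.ofFn q.2)} := measure_biUnion_finset_le _ _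
    _ ≤ ∑ _q ∈ (Finset.univ : Finset ((Fin n → Bool) × (Fin n → Bool))),
        (2⁻¹ : ENNReal) ^ (2 * hb n) := Finset.sum_le_sum (fun q _ => hb1 q)
    _ = ENNReal.ofReal (((2 : ℝ) ^ n) ^ 2 * (1 / 2) ^ (2 * hb n)) := by
      rw [Finset.sum_const, Finset.card_univ, Fintype.card_prod, Fintype.card_fun,
        Fintype.card_bool, Fintype.card_fin, nsmul_eq_mul, ENNReal.ofReal_mul (by positivity),
        ENNReal.ofReal_pow (by positivity), ENNReal.ofReal_pow (by positivity),
        ENNReal.ofReal_pow (by positivity), one_div, ENNReal.ofReal_inv_of_pos (by norm_num)]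
      push_cast
      simp [sq]
    _ ≤ ENNReal.ofReal (4 / ((n : ℝ) + 1) ^ 2) := ENNReal.ofReal_le_ofReal hreal

theorem p_hit1 : P_hit1 := by
  have hsum : Summable (fun n : ℕ => 4 / ((n : ℝ) + 1) ^ 2) := by
    have h1 : Summable (fun n : ℕ => 1 / ((n : ℝ)) ^ 2) :=
      Real.summable_one_div_nat_pow.2 (by norm_num)
    have h2 := ((summable_nat_add_iff 1).2 h1).mul_left 4
    refine h2.congr fun n => ?_
    push_cast
    ring
  have hfin : ∑' n, ranO (EE n) ≠ ⊤ :=
    ne_top_of_le_ne_top hsum.tsum_ofReal_ne_top (ENNReal.tsum_le_tsum EE_le)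
  filter_upwards [ae_eventually_notMem hfin] with B hB
  obtain ⟨n₀, hn⟩ := eventually_atTop.1 hB
  refine ⟨n₀, fun w w' hw hl h1 h2 => ?_⟩
  by_contra hne
  exact hn w.length hw ⟨w, w', rfl, hl, hne, h1, h2⟩

end Pool.Agent.W2helper66.PB
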